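import Pool.Agent.R877.RN.Stm

namespace R877.RN
open Matrix Filter Topology

namespace TRI984

theorem isO_inv {n : ℕ} {l : Mat n} (h : IsO l) : l⁻¹ = lᵀ := Matrix.inv_eq_right_inv h

theorem isO_mul' {n : ℕ} {l : Mat n} (h : IsO l) : lᵀ * l = 1 := by
  have := mul_eq_one_comm.1 h
  exact this

theorem isO_det {n : ℕ} {l : Mat n} (h : IsO l) : IsUnit l.det := by
  have h1 : l.det * lᵀ.det = 1 := by rw [← Matrix.det_mul, h, Matrix.det_one]
  exact IsUnit.of_mul_eq_one _ h1

theorem isO_iff {n : ℕ} (l : Mat n) : IsO l ↔ ∀ i k, ∑ j, l i j * l k j = (1 : Mat n) i k := by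
  unfold IsO
  constructor
  · intro h i k
    have := congrFun (congrFun h i) k
    rw [Matrix.mul_apply] at this
    simpa [Matrix.transpose_apply] using this
  · intro h
    ext i k
    rw [Matrix.mul_apply]
    simpa [Matrix.transpose_apply] using h i k

theorem isO_le {n : ℕ} {l : Mat n} (h : IsO l) (i j : Fin n) : l i j ∈ Set.Icc (-1 : ℝ) 1 := by
  have h1 := (isO_iff l).1 h i i
  rw [Matrix.one_apply_eq] at h1
  have h2 : l i j * l i j ≤ 1 := by
    rw [← h1]
    exact Finset.single_le_sum (f := fun j => l i j * l i j) (fun j _ => mul_self_nonneg _)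
      (Finset.mem_univ j)
  rw [Set.mem_Icc]
  constructor <;> nlinarith

theorem act_isO {n : ℕ} {l : Mat n} (h : IsO l) (μ : Br n) (i j k : Fin n) :
    act l μ i j k = ∑ p, ∑ q, ∑ r, l k r * μ p q r * l i p * l j q := by
  unfold act
  rw [isO_inv h]
  rfl

theorem cpt {n : ℕ} (l : ℕ → Mat n) (h : ∀ m, IsO (l m)) :
    ∃ (l' : Mat n) (φ : ℕ → ℕ), IsO l' ∧ StrictMono φ ∧
      ∀ i j, Tendsto (fun m => l (φ m) i j) atTop (𝓝 (l' i j)) := by
  have hc : IsCompact (Set.pi Set.univ fun _ : Fin n => Set.pi Set.univ fun _ : Fin n =>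
      Set.Icc (-1 : ℝ) 1) :=
    isCompact_univ_pi fun _ => isCompact_univ_pi fun _ => isCompact_Icc
  let l0 : ℕ → Fin n → Fin n → ℝ := fun m i j => l m i j
  obtain ⟨l', -, φ, hφ, hlim⟩ := hc.tendsto_subseq (x := l0)
    (fun m i _ j _ => isO_le (h m) i j)
  have hlim' : ∀ i j, Tendsto (fun m => l (φ m) i j) atTop (𝓝 (l' i j)) := fun i j =>
    tendsto_pi_nhds.1 (tendsto_pi_nhds.1 hlim i) j
  refine ⟨l', φ, ?_, hφ, hlim'⟩
  rw [isO_iff]
  intro i k
  have h1 : Tendsto (fun m => ∑ j, l (φ m) i j * l (φ m) k j) atTop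
      (𝓝 (∑ j, l' i j * l' k j)) :=
    tendsto_finsetSum _ fun j _ => (hlim' i j).mul (hlim' k j)
  refine tendsto_nhds_unique h1 ?_
  refine tendsto_const_nhds.congr fun m => ?_
  exact ((isO_iff _).1 (h _) i k).symm

theorem strict_pow {n : ℕ} (M : Mat n) (hM : ∀ k i, M k i ≠ 0 → i < k) (m : ℕ) :
    ∀ k i : Fin n, (M ^ m) k i ≠ 0 → (i : ℕ) + m ≤ k := by
  induction m with
  | zero =>
    intro k i h
    rw [pow_zero] at h
    by_cases hki : k = i
    · subst hki; simp
    · exact absurd (Matrix.one_apply_ne hki) h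
  | succ m ih =>
    intro k i h
    rw [pow_succ, Matrix.mul_apply] at h
    obtain ⟨r, -, hr⟩ := Finset.exists_ne_zero_of_sum_ne_zero h
    have h1 := ih k r (left_ne_zero_of_mul hr)
    have h2 := hM r i (right_ne_zero_of_mul hr)
    have h3 : (i : ℕ) < r := h2
    omega

theorem conj_pow {n : ℕ} {l : Mat n} (h : IsO l) (M : Mat n) (m : ℕ) :
    (l * M * lᵀ) ^ m = l * M ^ m * lᵀ := by
  induction m with
  | zero => rw [pow_zero, pow_zero, Matrix.mul_one]; exact h.symm
  | succ m ih =>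
    rw [pow_succ, ih, pow_succ]
    calc l * M ^ m * lᵀ * (l * M * lᵀ) = l * M ^ m * (lᵀ * l) * M * lᵀ := by
          simp only [Matrix.mul_assoc]
      _ = l * (M ^ m * M) * lᵀ := by
          rw [isO_mul' h, Matrix.mul_one]; simp only [Matrix.mul_assoc]

end TRI984

open TRI984

theorem p_TRICL : P_TRICL := by
  intro n μ N μ' N' hT hμ hN
  choose l hl h1 h2 using hT
  obtain ⟨l', φ, hl', hφ, hlim⟩ := cpt l hl
  have hμ' : ∀ p q r, Tendsto (fun m => μ (φ m) p q r) atTop (𝓝 (μ' p q r)) := by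
    intro p q r
    have := tendsto_pi_nhds.1 (tendsto_pi_nhds.1 (tendsto_pi_nhds.1 hμ p) q) r
    exact this.comp hφ.tendsto_atTop
  have hN' : ∀ p q, Tendsto (fun m => N (φ m) p q) atTop (𝓝 (N' p q)) := by
    intro p q
    have hc : Continuous (fun M : Mat n => M p q) := continuous_id.matrix_elem p q
    exact ((hc.tendsto N').comp hN).comp hφ.tendsto_atTop
  refine ⟨l', hl', ?_, ?_⟩
  · intro i j k hne
    have ht : Tendsto (fun m => act (l (φ m)) (μ (φ m)) i j k) atTop (𝓝 (act l' μ' i j k)) := by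
      rw [act_isO hl']
      have : (fun m => act (l (φ m)) (μ (φ m)) i j k) = fun m => ∑ p, ∑ q, ∑ r,
          l (φ m) k r * μ (φ m) p q r * l (φ m) i p * l (φ m) j q := by
        funext m
        exact act_isO (hl _) _ i j k
      rw [this]
      refine tendsto_finsetSum _ fun p _ => tendsto_finsetSum _ fun q _ =>
        tendsto_finsetSum _ fun r _ => ?_
      exact (((hlim k r).mul (hμ' p q r)).mul (hlim i p)).mul (hlim j q)
    obtain ⟨m, hm⟩ := (ht.eventually_ne hne).exists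
    exact h1 _ i j k hm
  · intro k i hne
    have he : ∀ (l N : Mat n), (l * N * lᵀ) k i = ∑ q, (∑ p, l k p * N p q) * l i q := by
      intro l N
      rw [Matrix.mul_apply]
      refine Finset.sum_congr rfl fun q _ => ?_
      rw [Matrix.mul_apply, Matrix.transpose_apply]
    have ht : Tendsto (fun m => (l (φ m) * N (φ m) * (l (φ m))ᵀ) k i) atTop
        (𝓝 ((l' * N' * l'ᵀ) k i)) := by
      simp only [he]
      refine tendsto_finsetSum _ fun q _ => ?_
      exact (tendsto_finsetSum _ fun p _ => (hlim k p).mul (hN' p q)).mul (hlim i q)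
    obtain ⟨m, hm⟩ := (ht.eventually_ne hne).exists
    exact h2 _ k i hm

theorem p_TRIC (hQR : P_QR) (hAM : P_ACTMUL) (hPI : P_PINV) : P_TRIC := by
  intro n μ N c t ⟨l, hl, h1, h2⟩
  refine ⟨⟨l, hl, h1, ?_⟩, ?_, ?_⟩
  · intro k i h
    simp at h
  · have h3 : (l * N * lᵀ) ^ n = 0 := by
      ext k i
      by_contra hne
      have := strict_pow (l * N * lᵀ) h2 n k i hne
      have := k.2
      omega
    rw [conj_pow hl] at h3
    calc N ^ n = (lᵀ * l) * N ^ n * (lᵀ * l) := by
          rw [isO_mul' hl, Matrix.one_mul, Matrix.mul_one]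
      _ = lᵀ * (l * N ^ n * lᵀ) * l := by simp only [Matrix.mul_assoc]
      _ = 0 := by rw [h3, Matrix.mul_zero, Matrix.zero_mul]
  · intro hc
    have hlt : IsUnit (lᵀ).det := by rw [Matrix.det_transpose]; exact isO_det hl
    have hcl : IsUnit (c * lᵀ).det := by rw [Matrix.det_mul]; exact hc.mul hlt
    obtain ⟨k, hk, hpar⟩ := hQR n (fun i => ((i : ℕ) : ℝ)) (c * lᵀ) hcl
    have hkd := isO_det hk
    have hRd : IsUnit (k * (c * lᵀ)).det := by rw [Matrix.det_mul]; exact hkd.mul hcl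
    have hpar' := hPI n _ _ hRd hpar
    have hRl : k * (c * lᵀ) * l = k * c := by
      simp only [Matrix.mul_assoc]
      rw [isO_mul' hl, Matrix.mul_one]
    have hlow : ∀ i j, (k * (c * lᵀ)) i j ≠ 0 → j ≤ i := by
      intro i j h
      have := hpar i j h
      have h0 : (((j : ℕ)) : ℝ) ≤ ((i : ℕ) : ℝ) := this
      have h' : (j : ℕ) ≤ (i : ℕ) := Nat.cast_le.1 h0
      exact h'
    have hlow' : ∀ i j, ((k * (c * lᵀ))⁻¹) i j ≠ 0 → j ≤ i := by
      intro i j h
      have := hpar' i j h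
      have h0 : (((j : ℕ)) : ℝ) ≤ ((i : ℕ) : ℝ) := this
      have h' : (j : ℕ) ≤ (i : ℕ) := Nat.cast_le.1 h0
      exact h'
    refine ⟨k, hk, ?_, ?_⟩
    · have hact : act k (act c μ) = act (k * (c * lᵀ)) (act l μ) := by
        rw [← hAM n k c μ hkd hc, ← hAM n _ l μ hRd (isO_det hl), hRl]
      intro i j m hne
      rw [hact] at hne
      unfold act at hne
      obtain ⟨p, -, hp⟩ := Finset.exists_ne_zero_of_sum_ne_zero hne
      obtain ⟨q, -, hq⟩ := Finset.exists_ne_zero_of_sum_ne_zero hp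
      obtain ⟨r, -, hr⟩ := Finset.exists_ne_zero_of_sum_ne_zero hq
      have e1 := right_ne_zero_of_mul hr
      have hr2 := left_ne_zero_of_mul hr
      have e2 := right_ne_zero_of_mul hr2
      have hr3 := left_ne_zero_of_mul hr2
      have e3 := right_ne_zero_of_mul hr3
      have e4 := left_ne_zero_of_mul hr3
      have f1 := hlow' q j e1
      have f2 := hlow' p i e2
      have f3 := h1 p q r e3
      have f4 := hlow m r e4
      exact ⟨lt_of_le_of_lt f2 (lt_of_lt_of_le f3.1 f4), lt_of_le_of_lt f1 (lt_of_lt_of_le f3.2 f4)⟩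
    · intro m i hne
      have hinv : c⁻¹ * kᵀ = lᵀ * (k * (c * lᵀ))⁻¹ := by
        rw [← isO_inv hk, ← Matrix.mul_inv_rev, ← hRl, Matrix.mul_inv_rev, isO_inv hl]
      have hEq : k * (t • conj c N) * kᵀ =
          t • ((k * (c * lᵀ)) * (l * N * lᵀ) * (k * (c * lᵀ))⁻¹) := by
        unfold conj
        rw [Matrix.mul_smul, Matrix.smul_mul]
        congr 1
        calc k * (c * N * c⁻¹) * kᵀ = (k * c) * N * (c⁻¹ * kᵀ) := by
              simp only [Matrix.mul_assoc]
          _ = (k * (c * lᵀ) * l) * N * (lᵀ * (k * (c * lᵀ))⁻¹) := by rw [hRl, hinv]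
          _ = _ := by simp only [Matrix.mul_assoc]
      rw [hEq, Matrix.smul_apply, smul_eq_mul] at hne
      have hne2 := right_ne_zero_of_mul hne
      rw [Matrix.mul_apply] at hne2
      obtain ⟨s, -, hs⟩ := Finset.exists_ne_zero_of_sum_ne_zero hne2
      have e1 := right_ne_zero_of_mul hs
      have hs2 := left_ne_zero_of_mul hs
      rw [Matrix.mul_apply] at hs2
      obtain ⟨r, -, hr⟩ := Finset.exists_ne_zero_of_sum_ne_zero hs2
      have e2 := right_ne_zero_of_mul hr
      have e3 := left_ne_zero_of_mul hr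
      exact lt_of_le_of_lt (hlow' s i e1) (lt_of_lt_of_le (h2 r s e2) (hlow m r e3))

end R877.RN
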